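import Pool.Agent.Helper60.PlzA.Goals

/-!
# Project PLA, packet NREG
-/

set_option autoImplicit false

namespace Pool.Agent.Helper61.PlzA

open Finset Pool.Agent.Helper93.Plz Pool.Agent.Helper60.PlzA

open scoped Classical

theorem sum_nbs_swap {V : Type} [Fintype V] (G : SimpleGraph V) (f : V → ℝ) :
    ∑ v, ∑ w ∈ nbs G v, f w = ∑ v, (dgr G v : ℝ) * f v := by
  unfold nbs
  simp_rw [Finset.sum_filter]
  rw [Finset.sum_comm]
  refine Finset.sum_congr rfl fun w _ => ?_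
  rw [← Finset.sum_filter, Finset.sum_const, nsmul_eq_mul]
  congr 2
  unfold dgr nbs
  congr 1
  ext v
  rw [mem_filter, mem_filter]
  exact ⟨fun h => ⟨h.1, h.2.symm⟩, fun h => ⟨h.1, h.2.symm⟩⟩

theorem e2_univ {V : Type} [Fintype V] (G : SimpleGraph V) : (e2 G univ : ℝ) = ∑ v, (dgr G v : ℝ) := by
  unfold e2 eb dgr nbs
  rw [Finset.card_filter, Finset.sum_product]
  push_cast
  refine Finset.sum_congr rfl fun v _ => ?_
  rw [Finset.card_filter]
  push_cast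
  rfl

/-- PACKET NREG -/
theorem nreg (h1 : S_SAMP) : S_NREG := by
  intro V _ G s t η hs hη hη1 hst hdeg hHS
  have hS1 : (1 : ℝ) ≤ s := by exact_mod_cast hs
  have hT0 : (0 : ℝ) < t := by
    by_contra hcon
    push Not at hcon
    nlinarith
  have hST : (s : ℝ) ≤ t := hst.trans (by nlinarith)
  have hd0 : ∀ v, (0 : ℝ) ≤ dgr G v := fun v => Nat.cast_nonneg _
  have hdT : ∀ v, (dgr G v : ℝ) ≤ t := fun v => by exact_mod_cast hdeg v
  obtain ⟨m, hm⟩ : ∃ m : V → ℝ, ∀ v, m v = max (dgr G v : ℝ) s := ⟨_, fun _ => rfl⟩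
  have hmS : ∀ v, (s : ℝ) ≤ m v := fun v => by rw [hm]; exact le_max_right _ _
  have hmd : ∀ v, (dgr G v : ℝ) ≤ m v := fun v => by rw [hm]; exact le_max_left _ _
  have hm0 : ∀ v, 0 < m v := fun v => by linarith [hmS v]
  have hmT : ∀ v, m v ≤ t := fun v => by rw [hm]; exact max_le (hdT v) hST
  have hmd2 : ∀ v, m v ≤ dgr G v + η * t := fun v => by
    rw [hm]; exact max_le (by nlinarith [hd0 v]) (by linarith [hd0 v])
  obtain ⟨p, hp⟩ : ∃ p : V → ℝ, ∀ v, p v = s / m v := ⟨_, fun _ => rfl⟩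
  have hp0 : ∀ v, 0 ≤ p v := fun v => by rw [hp]; exact div_nonneg (by linarith) (hm0 v).le
  have hp1 : ∀ v, p v ≤ 1 := fun v => by rw [hp]; exact (div_le_one (hm0 v)).2 (hmS v)
  obtain ⟨Z, -, hZ⟩ := h1 V _ G s p hp0 hp1
  -- the quadratic term
  have hq : ∑ v, ∑ w ∈ nbs G v, p v * p w ≤ ∑ v, (dgr G v : ℝ) * p v ^ 2 := by
    calc ∑ v, ∑ w ∈ nbs G v, p v * p w ≤ ∑ v, ∑ w ∈ nbs G v, (p v ^ 2 / 2 + p w ^ 2 / 2) := by
          refine Finset.sum_le_sum fun v _ => Finset.sum_le_sum fun w _ => ?_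
          nlinarith [sq_nonneg (p v - p w)]
      _ = ∑ v, (dgr G v : ℝ) * (p v ^ 2 / 2) + ∑ v, (dgr G v : ℝ) * (p v ^ 2 / 2) := by
          have e1 : ∀ v, ∑ w ∈ nbs G v, (p v ^ 2 / 2 + p w ^ 2 / 2) =
              (dgr G v : ℝ) * (p v ^ 2 / 2) + ∑ w ∈ nbs G v, p w ^ 2 / 2 := by
            intro v
            rw [Finset.sum_add_distrib, Finset.sum_const, nsmul_eq_mul]
            rfl
          simp_rw [e1]
          rw [Finset.sum_add_distrib, sum_nbs_swap G (fun v => p v ^ 2 / 2)]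
      _ = ∑ v, (dgr G v : ℝ) * p v ^ 2 := by
          rw [← Finset.sum_add_distrib]
          refine Finset.sum_congr rfl fun v _ => ?_
          ring
  have hlow : (s : ℝ) ^ 2 * ∑ v, 1 / m v ≤ UU G s Z := by
    refine le_trans ?_ hZ
    have e2 : (s : ℝ) ^ 2 * ∑ v, 1 / m v ≤ 2 * s * ∑ v, p v - ∑ v, (dgr G v : ℝ) * p v ^ 2 := by
      rw [Finset.mul_sum, Finset.mul_sum, ← Finset.sum_sub_distrib]
      refine Finset.sum_le_sum fun v _ => ?_
      have e3 : (dgr G v : ℝ) * p v ^ 2 ≤ s * p v := by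
        have e4 : (dgr G v : ℝ) * p v ≤ s := by
          rw [hp, ← mul_div_assoc, div_le_iff₀ (hm0 v)]
          nlinarith [hmd v]
        nlinarith [hp0 v]
      have e5 : (s : ℝ) ^ 2 * (1 / m v) = s * p v := by rw [hp]; ring
      rw [e5]
      linarith
    linarith
  have hUU : UU G t univ = ∑ v, (2 * (t : ℝ) - dgr G v) := by
    unfold UU
    rw [e2_univ, Finset.sum_sub_distrib, Finset.sum_const, nsmul_eq_mul]
    ring
  have hmain : (t : ℝ) ^ 2 * ∑ v, 1 / m v ≤ (1 + 3 * η) * ∑ v, (2 * (t : ℝ) - dgr G v) := by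
    have e1 := hHS Z
    rw [hUU] at e1
    have e2 := (mul_le_mul_of_nonneg_left hlow (sq_nonneg (t : ℝ))).trans e1
    have e3 : (s : ℝ) ^ 2 * ((t : ℝ) ^ 2 * ∑ v, 1 / m v) ≤
        (s : ℝ) ^ 2 * ((1 + 3 * η) * ∑ v, (2 * (t : ℝ) - dgr G v)) := by
      calc (s : ℝ) ^ 2 * ((t : ℝ) ^ 2 * ∑ v, 1 / m v) = (t : ℝ) ^ 2 * ((s : ℝ) ^ 2 * ∑ v, 1 / m v) := by
            ring
        _ ≤ _ := e2
        _ = _ := by ring
    exact le_of_mul_le_mul_left e3 (by positivity)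
  -- pointwise
  have hpt : ∀ v, (2 * (t : ℝ) - m v) + ((t : ℝ) - m v) ^ 2 / t ≤ (t : ℝ) ^ 2 * (1 / m v) := by
    intro v
    have e1 : (t : ℝ) ^ 2 * (1 / m v) - (2 * (t : ℝ) - m v) = ((t : ℝ) - m v) ^ 2 / m v := by
      have := (hm0 v).ne'
      field_simp
      ring
    have e2 : ((t : ℝ) - m v) ^ 2 / t ≤ ((t : ℝ) - m v) ^ 2 / m v :=
      div_le_div_of_nonneg_left (sq_nonneg _) (hm0 v) (hmT v)
    linarith
  have hsq : ∑ v, ((t : ℝ) - m v) ^ 2 / t ≤ 7 * η * t * Fintype.card V := by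
    have e1 : ∑ v, ((2 * (t : ℝ) - m v) + ((t : ℝ) - m v) ^ 2 / t) ≤ (t : ℝ) ^ 2 * ∑ v, 1 / m v := by
      rw [Finset.mul_sum]
      exact Finset.sum_le_sum fun v _ => hpt v
    rw [Finset.sum_add_distrib] at e1
    have e2 : (1 + 3 * η) * ∑ v, (2 * (t : ℝ) - dgr G v) ≤ ∑ v, ((2 * (t : ℝ) - m v) + 7 * η * t) := by
      rw [Finset.mul_sum]
      refine Finset.sum_le_sum fun v _ => ?_
      have e3 := hmd2 v
      have e4 := mul_nonneg hη.le (hd0 v)
      nlinarith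
    rw [Finset.sum_add_distrib, Finset.sum_const, nsmul_eq_mul, Finset.card_univ] at e2
    linarith
  obtain ⟨q, hq0, hqq⟩ : ∃ q : ℝ, 0 < q ∧ q ^ 2 = η := ⟨√η, Real.sqrt_pos.2 hη, Real.sq_sqrt hη.le⟩
  have hqη : √η = q := by rw [← hqq, Real.sqrt_sq hq0.le]
  rw [hqη]
  have hq1 : q ≤ 1 := by
    by_contra hcon
    push Not at hcon
    nlinarith
  have hpt2 : ∀ v, (t : ℝ) - dgr G v ≤ 3 / (16 * q) * (((t : ℝ) - m v) ^ 2 / t) + (4 / 3 * q * t + q * t) := by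
    intro v
    have e1 := hmd2 v
    have e2 : η * t ≤ q * t := mul_le_mul_of_nonneg_right (by rw [← hqq]; nlinarith) hT0.le
    have e3 : (t : ℝ) - m v ≤ 3 / (16 * q) * (((t : ℝ) - m v) ^ 2 / t) + 4 / 3 * q * t := by
      have e4 : 3 / (16 * q) * (((t : ℝ) - m v) ^ 2 / t) + 4 / 3 * q * t - ((t : ℝ) - m v) =
          3 / (16 * q * t) * (((t : ℝ) - m v) - 8 / 3 * q * t) ^ 2 := by
        field_simp
        ring
      have e5 : 0 ≤ 3 / (16 * q * t) * (((t : ℝ) - m v) - 8 / 3 * q * t) ^ 2 := by positivity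
      linarith
    linarith
  calc ∑ v, ((t : ℝ) - dgr G v)
      ≤ ∑ v, (3 / (16 * q) * (((t : ℝ) - m v) ^ 2 / t) + (4 / 3 * q * t + q * t)) :=
        Finset.sum_le_sum fun v _ => hpt2 v
    _ = 3 / (16 * q) * ∑ v, ((t : ℝ) - m v) ^ 2 / t + (Fintype.card V : ℝ) * (4 / 3 * q * t + q * t) := by
        rw [Finset.sum_add_distrib, Finset.sum_const, nsmul_eq_mul, Finset.card_univ, Finset.mul_sum]
    _ ≤ 3 / (16 * q) * (7 * η * t * Fintype.card V) + (Fintype.card V : ℝ) * (4 / 3 * q * t + q * t) := by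
        have : 0 ≤ 3 / (16 * q) := by positivity
        nlinarith [mul_le_mul_of_nonneg_left hsq this]
    _ = (21 / 16 + 4 / 3 + 1) * q * t * Fintype.card V := by
        rw [← hqq]
        field_simp
        ring
    _ ≤ 4 * q * t * Fintype.card V := by
        have : 0 ≤ q * t * (Fintype.card V : ℝ) := by positivity
        nlinarith

end Pool.Agent.Helper61.PlzA
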