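import Pool.Agent.Helper60.PlzA.Goals

/-!
# Project PLA, packet BASE
-/

set_option autoImplicit false

namespace Pool.Agent.Helper61.PlzA

open Finset Pool.Agent.Helper93.Plz Pool.Agent.Helper60.PlzA

open scoped Classical

theorem e2_erase {V : Type} [Fintype V] (G : SimpleGraph V) (Z : Finset V) {u w : V} (hu : u ∈ Z)
    (hw : w ∈ Z) (huw : G.Adj u w) : e2 G (Z.erase u) + 2 ≤ e2 G Z := by
  unfold e2 eb
  set A := ((Z.erase u ×ˢ Z.erase u).filter fun p : V × V => G.Adj p.1 p.2) with hA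
  set B := ((Z ×ˢ Z).filter fun p : V × V => G.Adj p.1 p.2) with hB
  have h1 : insert (u, w) (insert (w, u) A) ⊆ B := by
    intro p hp
    rw [mem_insert, mem_insert] at hp
    rw [hB, mem_filter, mem_product]
    rcases hp with rfl | rfl | hp
    · exact ⟨⟨hu, hw⟩, huw⟩
    · exact ⟨⟨hw, hu⟩, huw.symm⟩
    · rw [hA, mem_filter, mem_product] at hp
      exact ⟨⟨mem_of_mem_erase hp.1.1, mem_of_mem_erase hp.1.2⟩, hp.2⟩
  have h2 : (w, u) ∉ A := by
    rw [hA, mem_filter, mem_product]
    rintro ⟨⟨-, h⟩, -⟩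
    exact notMem_erase u Z h
  have h3 : (u, w) ∉ insert (w, u) A := by
    rw [mem_insert, hA, mem_filter, mem_product]
    rintro (h | ⟨⟨h, -⟩, -⟩)
    · exact huw.ne (Prod.mk.inj h).1
    · exact notMem_erase u Z h
  have h4 := card_le_card h1
  rw [card_insert_of_notMem h3, card_insert_of_notMem h2] at h4
  omega

theorem exists_indep {V : Type} [Fintype V] (G : SimpleGraph V) (n : ℕ) :
    ∀ Z : Finset V, Z.card = n → ∃ I ⊆ Z, (∀ x ∈ I, ∀ y ∈ I, ¬ G.Adj x y) ∧
      2 * Z.card ≤ 2 * I.card + e2 G Z := by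
  induction n with
  | zero =>
    intro Z hZ
    rw [card_eq_zero] at hZ
    subst hZ
    exact ⟨∅, subset_rfl, by simp, by simp⟩
  | succ n ih =>
    intro Z hZ
    by_cases h : ∀ x ∈ Z, ∀ y ∈ Z, ¬ G.Adj x y
    · exact ⟨Z, subset_rfl, h, by omega⟩
    · push Not at h
      obtain ⟨u, hu, w, hw, huw⟩ := h
      have hc := card_erase_of_mem hu
      obtain ⟨I, hI, hI1, hI2⟩ := ih (Z.erase u) (by omega)
      refine ⟨I, hI.trans (erase_subset u Z), hI1, ?_⟩
      have h1 := e2_erase G Z hu hw huw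
      omega

theorem plS_indep {V : Type} (G : SimpleGraph V) (I : Finset V) :
    (∀ x ∈ I, ∀ y ∈ I, ¬ G.Adj x y) → PlS G (I : Set V) := by
  induction I using Finset.induction_on with
  | empty =>
    intro _
    rw [coe_empty]
    exact plS_empty G
  | insert v I hv ih =>
    intro h
    have h1 := ih fun x hx y hy => h x (mem_insert_of_mem hx) y (mem_insert_of_mem hy)
    rw [coe_insert]
    refine plS_insert (a := v) (b := v) (H' := G) ?_ (fun _ _ _ _ h => h) (fun _ _ _ _ h => absurd rfl h) h1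
    intro y hy hvy
    exact absurd hvy (h v (mem_insert_self v I) y (mem_insert_of_mem (mem_coe.1 hy)))

/-- PACKET BASE -/
theorem base : S_BASE := by
  intro V _ G S
  have hne : (S.powerset.filter fun P : Finset V => PlS G (P : Set V)).Nonempty := by
    refine ⟨∅, ?_⟩
    rw [mem_filter, mem_powerset, coe_empty]
    exact ⟨empty_subset S, plS_empty G⟩
  obtain ⟨P, hP, hmax⟩ := exists_max_image _ Finset.card hne
  rw [mem_filter, mem_powerset] at hP
  refine ⟨P, hP.1, hP.2, fun Z hZ => ?_⟩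
  obtain ⟨I, hI, hI1, hI2⟩ := exists_indep G Z.card Z rfl
  have h1 : I.card ≤ P.card := by
    apply hmax
    rw [mem_filter, mem_powerset]
    exact ⟨hI.trans hZ, plS_indep G I hI1⟩
  have h2 : (2 * Z.card : ℝ) ≤ 2 * I.card + e2 G Z := by exact_mod_cast hI2
  have h3 : (I.card : ℝ) ≤ P.card := by exact_mod_cast h1
  unfold UU
  push_cast
  linarith

end Pool.Agent.Helper61.PlzA
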